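import Pool.Agent.Helper67_Pack.E7

/-!
# E4: every nice packing gives displacements
-/

namespace Pool.Agent.Helper67_Pack

open Pool.Agent.Helper2_Pack MeasureTheory Set

/-- translate a motion by `-w` -/
def shift (g : Motion) (w : ℂ) : Motion := ⟨g.u, g.v - w, g.unit⟩

theorem mem_int_img' {q : ℝ} {g : Motion} {s : Shp} {z : ℂ} :
    z ∈ interior (img q g s) ↔ (starRingEnd ℂ g.u) * (z - g.v) ∈ interior (s.reg q) := by
  unfold img
  rw [(s2 g _).1, g.mem_image]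

theorem mem_img' {q : ℝ} {g : Motion} {s : Shp} {z : ℂ} :
    z ∈ img q g s ↔ (starRingEnd ℂ g.u) * (z - g.v) ∈ s.reg q := by
  unfold img
  rw [g.mem_image]

theorem mem_shift {q : ℝ} {g : Motion} {s : Shp} {z w : ℂ} :
    z ∈ img q (shift g w) s ↔ z + w ∈ img q g s := by
  rw [mem_img', mem_img']
  have : z - (shift g w).v = z + w - g.v := by
    show z - (g.v - w) = z + w - g.v
    ring
  rw [this]
  rfl

theorem mem_int_shift {q : ℝ} {g : Motion} {s : Shp} {z w : ℂ} :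
    z ∈ interior (img q (shift g w) s) ↔ z + w ∈ interior (img q g s) := by
  rw [mem_int_img', mem_int_img']
  have : z - (shift g w).v = z + w - g.v := by
    show z - (g.v - w) = z + w - g.v
    ring
  rw [this]
  rfl

theorem hx_shift (g : Motion) (w : ℂ) (a y : ℝ) (h : 0 < g.u.re) :
    hx (shift g w) a y = hx g a (y + w.im) - w.re := by
  symm
  apply hx_unique (shift g w) a y _ h
  have e := hx_eq g a (y + w.im) h
  show g.u.re * (hx g a (y + w.im) - w.re - (g.v - w).re) + g.u.im * (y - (g.v - w).im) = a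
  rw [Complex.sub_re, Complex.sub_im]
  refine Eq.trans ?_ e
  ring

/-- the three hypotheses of E1 and E2 -/
theorem stack {q : ℝ} {t₀ t t₂ : Tile} {g₀ g g₂ : Motion} {c r Y₀ Y₂ : ℝ}
    (hG₀ : ((Shp.tile t₀).sh q).Good) (hG : ((Shp.tile t).sh q).Good)
    (hu₀ : g₀.u = 1) (hv₀ : g₀.v = ⟨c, r - 1 + Y₀⟩) (hu₂ : g₂.u = 1)
    (hv₂ : g₂.v = ⟨c, r + 1 + Y₂⟩)
    (hd₀ : Disjoint (interior (img q g₀ (.tile t₀))) (interior (img q g (.tile t))))
    (hd₂ : Disjoint (interior (img q g (.tile t))) (interior (img q g₂ (.tile t₂)))) :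
    (∀ z ∈ (Shp.tile t₀).reg q, z + ⟨0, -1 + Y₀⟩ ∉
      interior (img q (shift g ⟨c, r⟩) (.tile t))) ∧
    (∀ z ∈ img q (shift g ⟨c, r⟩) (.tile t), z - ⟨0, -1 + Y₀⟩ ∉
      interior ((Shp.tile t₀).reg q)) ∧
    (∀ z ∈ img q (shift g ⟨c, r⟩) (.tile t), z - ⟨0, 1 + Y₂⟩ ∉
      interior ((Shp.tile t₂).reg q)) := by
  refine ⟨?_, ?_, ?_⟩
  · intro z hz
    rw [mem_int_shift]
    refine not_mem_of_disj hG₀ hd₀ ?_
    rw [mem_img', hu₀, hv₀, map_one, one_mul]
    convert! hz using 1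
    apply Complex.ext
    · simp
    · simp; ring
  · intro z hz hz'
    rw [mem_shift] at hz
    refine not_mem_of_disj hG hd₀.symm hz ?_
    rw [mem_int_img', hu₀, hv₀, map_one, one_mul]
    convert! hz' using 1
    apply Complex.ext
    · simp
    · simp; ring
  · intro z hz hz'
    rw [mem_shift] at hz
    refine not_mem_of_disj hG hd₂ hz ?_
    rw [mem_int_img', hu₂, hv₂, map_one, one_mul]
    convert! hz' using 1
    apply Complex.ext
    · simp
    · simp; ring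

theorem bump_mem {q : ℝ} (h0 : 0 < q) (h1 : q ≤ 1 / 2 ^ 20) {t : Tile} {g : Motion} {c s : ℝ}
    (hu : g.u = 1) (hv : g.v = ⟨c, s⟩) {p : ℕ} (hp : p ∈ t.top.marks) :
    (⟨c + p / 32, s + 1 + q⟩ : ℂ) ∈ img q g (.tile t) := by
  have b1 := xl_bd h0 t
  have b2 := xr_bd h0 t
  obtain ⟨p1, p2⟩ := marks_bd _ p hp
  have p1' : (10 : ℝ) ≤ p := by exact_mod_cast p1
  have p2' : (p : ℝ) ≤ 29 := by exact_mod_cast p2
  rw [mem_img', hu, hv, map_one, one_mul]
  have e1 : ((⟨c + p / 32, s + 1 + q⟩ : ℂ) - ⟨c, s⟩).re = p / 32 := by simp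
  have e2 : ((⟨c + p / 32, s + 1 + q⟩ : ℂ) - ⟨c, s⟩).im = 1 + q := by
    simp
    ring
  have hxl : t.xl q ≤ (p : ℝ) / 32 := by norm_num at h1; linarith only [b1, p1', h1]
  refine ⟨?_, ?_, ?_, ?_⟩
  · rw [e1]
    exact hxl
  · rw [e1]
    show (p : ℝ) / 32 ≤ t.xr q
    linarith only [b2, p2']
  · rw [e1, e2]
    refine (lo_le h0 h1 t hxl).trans ?_
    norm_num at h1
    linarith only [h1]
  · rw [e1, e2]
    have h2 : cham q (t.xl q) ((p : ℝ) / 32) = 0 :=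
      cham_zero h0 h1 b1.2 (by linarith only [p1']) (by linarith only [p2'])
    show 1 + q ≤ tents 1 (t.top.marks.map fun p : ℕ => ((p : ℝ) / 32, 1 + q)) ((p : ℝ) / 32) -
      cham q (t.xl q) ((p : ℝ) / 32)
    rw [h2, sub_zero]
    have h3 := le_tents (g := 1) (x := (p : ℝ) / 32) (d := ((p : ℝ) / 32, 1 + q))
      (L := t.top.marks.map fun p : ℕ => ((p : ℝ) / 32, 1 + q))
      (List.mem_map.2 ⟨p, hp, rfl⟩)
    simp only [sub_self, abs_zero, sub_zero] at h3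
    exact h3

theorem piv_bd {q : ℝ} (h0 : 0 < q) (σ : Bool) : q / 2 ≤ piv q σ ∧ piv q σ ≤ 2 * q := by
  unfold piv sg
  cases σ
  · simp only [Int.reduceNeg, Int.cast_neg, Int.cast_one]
    constructor <;> linarith only [h0]
  · simp only [Int.cast_one]
    constructor <;> linarith

/-- the ceiling at the tip of the spike -/
theorem spike {q : ℝ} (h0 : 0 < q) (h1 : q ≤ 1 / 2 ^ 20) (σ : Bool) :
    locCeil q (.portR σ) (4 / 32) ≤ piv q σ := by
  have h3 := q3_le h0 h1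
  have h4 : 0 < q ^ 3 := by positivity
  have h5 : q / 2 ^ 40 ≤ q / 16 := div_le_div_of_nonneg_left h0.le (by norm_num) (by norm_num)
  obtain ⟨p1, p2⟩ := piv_bd h0 σ
  refine max_le (max_le ?_ (tents_le (by linarith only [h3, h4, p1]) ?_)) ?_
  · calc q ^ 3 * min 1 ((1 - 4 / 32) / (4 * q ^ 3)) ≤ q ^ 3 * 1 :=
          mul_le_mul_of_nonneg_left (min_le_left _ _) h4.le
      _ ≤ piv q σ := by linarith only [h3, h4, p1]
  · intro d hd
    rw [List.mem_map] at hd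
    obtain ⟨p, hp, rfl⟩ := hd
    have hp' := (marks_bd _ p (List.mem_of_mem_filter hp)).1
    have hp2 : (10 : ℝ) ≤ p := by exact_mod_cast hp'
    show q + 2 * q ^ 3 - |4 / 32 - (p : ℝ) / 32| ≤ piv q σ
    have h8 : (p : ℝ) / 32 - 4 / 32 ≤ |4 / 32 - (p : ℝ) / 32| := by
      rw [abs_sub_comm]
      exact le_abs_self _
    norm_num at h1
    linarith
  · refine (min_le_right _ _).trans ?_
    rw [sub_self, abs_zero, mul_zero, zero_div, add_zero]

theorem xl_of_plus {q : ℝ} {t : Tile} (h : t.sgn = 1) : t.xl q = q := by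
  cases t <;> simp_all [Tile.sgn, Tile.xl, Tile.narrow]

theorem xr_of_minus {q : ℝ} {t : Tile} (h : t.sgn = -1) : t.xr q = 1 := by
  cases t <;> simp_all [Tile.sgn, Tile.xr, Tile.wide]

section
open Classical

variable (q : ℝ) (G : Layout) (g : Cell G → Motion)

/-- displacement of the left sides -/
noncomputable def XL (c r : ℕ) : ℝ :=
  if h : c < G.M ∧ r < G.N then
    hx (g (.inl (⟨c, h.1⟩, ⟨r, h.2⟩))) ((G.ty c r).xl q) (r + 1 / 4) - (c + (G.ty c r).xl q) else 0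

/-- displacement of the right sides -/
noncomputable def XR (c r : ℕ) : ℝ :=
  if h : c < G.M ∧ r < G.N then
    hx (g (.inl (⟨c, h.1⟩, ⟨r, h.2⟩))) ((G.ty c r).xr q) (r + 1 / 4) - (c + (G.ty c r).xr q) else 0

/-- heights of the tiles -/
noncomputable def YY (c r : ℕ) : ℝ :=
  if h : c < G.M ∧ r < G.N then (g (.inl (⟨c, h.1⟩, ⟨r, h.2⟩))).v.im - r else 0

end

variable {q : ℝ} {G : Layout} {g : Cell G → Motion}

theorem XL_eq {c r : ℕ} (hc : c < G.M) (hr : r < G.N) : XL q G g c r =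
    hx (g (.inl (⟨c, hc⟩, ⟨r, hr⟩))) ((G.ty c r).xl q) (r + 1 / 4) - (c + (G.ty c r).xl q) :=
  dif_pos ⟨hc, hr⟩

theorem XR_eq {c r : ℕ} (hc : c < G.M) (hr : r < G.N) : XR q G g c r =
    hx (g (.inl (⟨c, hc⟩, ⟨r, hr⟩))) ((G.ty c r).xr q) (r + 1 / 4) - (c + (G.ty c r).xr q) :=
  dif_pos ⟨hc, hr⟩

theorem YY_eq {c r : ℕ} (hc : c < G.M) (hr : r < G.N) :
    YY G g c r = (g (.inl (⟨c, hc⟩, ⟨r, hr⟩))).v.im - r := dif_pos ⟨hc, hr⟩

/-- the motions of the tiles in the even rows -/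
theorem even_motion (hE5 : E5Stmt) (hOK : G.OK) (hsm : Small q G) (hN : Nice q G G.ty g)
    {c r : ℕ} (hc : c < G.M) (hr : r < G.N) (he : r % 2 = 0) :
    (g (.inl (⟨c, hc⟩, ⟨r, hr⟩))).u = 1 ∧
      (g (.inl (⟨c, hc⟩, ⟨r, hr⟩))).v = ⟨c, r + YY G g c r⟩ := by
  obtain ⟨h1, h2⟩ := hE5 q G g hOK hsm hN ⟨c, hc⟩ ⟨r, hr⟩ he
  refine ⟨h1, Complex.ext h2 ?_⟩
  rw [YY_eq hc hr]
  show _ = (r : ℝ) + (_ - (r : ℝ))
  ring

theorem YY_bd (hN : Nice q G G.ty g) {c r : ℕ} (hc : c < G.M) (hr : r < G.N) :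
    |YY G g c r| ≤ q ^ 2 := by
  rw [YY_eq hc hr]
  exact (nice_near hN ⟨c, hc⟩ ⟨r, hr⟩).vim

/-- E4 -/
theorem e4 (hS3 : S3Stmt) (hS4 : S4Stmt) (hE1 : E1Stmt) (hE2 : E2Stmt) (hE3 : E3Stmt)
    (hE5 : E5Stmt) (hE6 : E6Stmt) (hE7 : E7Stmt) : E4Stmt := by
  intro q G g hOK hsm hN
  have h0 := hsm.pos
  have h1 := small_q hsm
  have h1' : q ≤ 1 / 1000 := h1.trans (by norm_num)
  have hF := hOK.fits
  have hNodd : G.N = 2 * G.n + 1 := rfl
  obtain ⟨E71, E72, E73⟩ := hE7 q G g hOK hsm hN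
  refine ⟨XL q G g, XR q G g, YY G g, ?_⟩
  -- the adders and subtractors
  have hstack : ∀ c r, ∀ hc : c < G.M, ∀ hr : r < G.N, r % 2 = 1 → (G.ty c r).sgn ≠ 0 →
      (∀ z ∈ (Shp.tile (G.ty c (r - 1))).reg q, z + ⟨0, -1 + YY G g c (r - 1)⟩ ∉
        interior (img q (shift (g (.inl (⟨c, hc⟩, ⟨r, hr⟩))) ⟨c, r⟩) (.tile (G.ty c r)))) ∧
      (∀ z ∈ img q (shift (g (.inl (⟨c, hc⟩, ⟨r, hr⟩))) ⟨c, r⟩) (.tile (G.ty c r)),
        z - ⟨0, -1 + YY G g c (r - 1)⟩ ∉ interior ((Shp.tile (G.ty c (r - 1))).reg q)) ∧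
      (∀ z ∈ img q (shift (g (.inl (⟨c, hc⟩, ⟨r, hr⟩))) ⟨c, r⟩) (.tile (G.ty c r)),
        z - ⟨0, 1 + YY G g c (r + 1)⟩ ∉ interior ((Shp.tile (G.ty c (r + 1))).reg q)) := by
    intro c r hc hr ho hs
    have hr0 : r - 1 < G.N := by omega
    have hr2 : r + 1 < G.N := by omega
    obtain ⟨u0, v0⟩ := even_motion hE5 hOK hsm hN hc hr0 (by omega)
    obtain ⟨u2, v2⟩ := even_motion hE5 hOK hsm hN hc hr2 (by omega)
    refine stack (hS3 q (.tile _) h0 h1').1 (hS3 q (.tile _) h0 h1').1 u0 ?_ u2 ?_ ?_ ?_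
    · rw [v0]
      have : ((r - 1 : ℕ) : ℝ) = (r : ℝ) - 1 := by
        rw [Nat.cast_sub (by omega)]
        simp
      rw [this]
    · rw [v2]
      push_cast
      rfl
    · exact hN.disj _ _ (ne_row (by show r - 1 ≠ r; omega))
    · exact hN.disj _ _ (ne_row (by show r ≠ r + 1; omega))
  have hshift : ∀ c r, ∀ hc : c < G.M, ∀ hr : r < G.N,
      ‖(shift (g (.inl (⟨c, hc⟩, ⟨r, hr⟩))) ⟨c, r⟩).u - 1‖ ≤ q ^ 2 ∧
      ‖(shift (g (.inl (⟨c, hc⟩, ⟨r, hr⟩))) ⟨c, r⟩).v‖ ≤ q ^ 2 := by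
    intro c r hc hr
    exact hN.tile (⟨c, hc⟩, ⟨r, hr⟩)
  refine ⟨?_, ?_, ?_, ?_, ?_, ?_, ?_, ?_, ?_, ?_⟩
  · -- left
    intro r hr ho
    obtain ⟨-, -, k3⟩ := hE6 q G g hOK hsm hN ⟨r, hr⟩
    have h := (k3 ⟨0, hOK.pos⟩).1
    rw [XL_eq hOK.pos hr]
    simp only at h
    rw [if_neg (by omega)] at h
    have e := xl_zero (q := q) hF hr
    rw [e] at h ⊢
    simp only [Nat.cast_zero, add_zero, sub_zero]
    exact h
  · -- right
    intro r hr ho
    have hM : G.M - 1 < G.M := by have := hOK.pos; omega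
    obtain ⟨-, -, k3⟩ := hE6 q G g hOK hsm hN ⟨r, hr⟩
    have h := (k3 ⟨G.M - 1, hM⟩).2
    rw [XR_eq hM hr]
    simp only at h
    rw [if_neg (by omega)] at h
    have e := xr_last (q := q) hF hr
    have e2 : ((G.M - 1 : ℕ) : ℝ) = (G.M : ℝ) - 1 := by
      rw [Nat.cast_sub (by have := hOK.pos; omega)]
      simp
    rw [e] at h ⊢
    rw [e2]
    linarith only [h]
  · -- wid
    intro c r hc hr ho
    rw [XL_eq hc hr, XR_eq hc hr]
    obtain ⟨k1, -, -⟩ := hE6 q G g hOK hsm hN ⟨r, hr⟩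
    have h := k1 ⟨c, hc⟩
    simp only at h
    have hp := (nice_near hN ⟨c, hc⟩ ⟨r, hr⟩).re_pos h0 h1
    have h2 := re_le_one (g (.inl (⟨c, hc⟩, ⟨r, hr⟩)))
    have b1 := xl_bd h0 (G.ty c r)
    have b2 := xr_bd h0 (G.ty c r)
    have h3 : 0 ≤ (G.ty c r).xr q - (G.ty c r).xl q := by
      norm_num at h1
      linarith only [b1, b2, h1]
    have h4 : (G.ty c r).xr q - (G.ty c r).xl q ≤
        ((G.ty c r).xr q - (G.ty c r).xl q) / (g (.inl (⟨c, hc⟩, ⟨r, hr⟩))).u.re := by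
      rw [le_div_iff₀ hp]
      exact mul_le_of_le_one_right h3 h2
    linarith only [h, h4]
  · -- adj
    intro c r hc hr ho
    have hc' : c < G.M := by omega
    rw [XR_eq hc' hr, XL_eq hc hr]
    obtain ⟨-, k2, -⟩ := hE6 q G g hOK hsm hN ⟨r, hr⟩
    have h := k2 ⟨c, hc'⟩ ⟨c + 1, hc⟩ rfl
    simp only at h
    have e := xr_eq (q := q) hF hc hr
    push_cast
    linarith only [h, e]
  · -- base
    intro c hc
    have hr : 0 < G.N := by omega
    rw [YY_eq hc hr]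
    have := E71 ⟨c, hc⟩ ⟨0, hr⟩ rfl
    simpa using this
  · -- step
    intro c r hc hr ho hs
    have hr0 : r - 1 < G.N := by omega
    have hr2 : r + 1 < G.N := by omega
    rw [YY_eq hc hr0, YY_eq hc hr2]
    have h := E72 ⟨c, hc⟩ ⟨r - 1, hr0⟩ ⟨r, hr⟩ ⟨r + 1, hr2⟩ (by show (r - 1) % 2 = 0; omega)
      (by show r = r - 1 + 1; omega) (by show r + 1 = r - 1 + 2; omega) hs
    have e2 : ((r - 1 : ℕ) : ℝ) = (r : ℝ) - 1 := by
      rw [Nat.cast_sub (by omega)]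
      simp
    rw [e2]
    push_cast
    linarith only [h]
  · -- plus
    intro c r hc hr ho hs
    have hr0 : r - 1 < G.N := by omega
    have hr2 : r + 1 < G.N := by omega
    obtain ⟨a1, a2, a3⟩ := hstack c r hc hr ho (by rw [hs]; decide)
    obtain ⟨n1, n2⟩ := hshift c r hc hr
    have hs2 := sgn_even hOK hc hr2 (by omega)
    have key := hE1 q _ _ (G.ty c (r - 1)) (G.ty c r) (G.ty c (r + 1)) _ h0 h1
      (YY_bd hN hc hr0) (YY_bd hN hc hr2) n1 n2 hs hs2 a1 a2 a3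
    have hp := (nice_near hN ⟨c, hc⟩ ⟨r, hr⟩).re_pos h0 h1
    rw [hx_shift _ _ _ _ hp] at key
    rw [XL_eq hc hr, xl_of_plus hs]
    simp only at key
    rw [add_comm (1 / 4 : ℝ) (r : ℝ)] at key
    linarith only [key]
  · -- minus
    intro c r hc hr ho hs
    have hr0 : r - 1 < G.N := by omega
    have hr2 : r + 1 < G.N := by omega
    obtain ⟨a1, a2, a3⟩ := hstack c r hc hr ho (by rw [hs]; decide)
    obtain ⟨n1, n2⟩ := hshift c r hc hr
    have hs2 := sgn_even hOK hc hr2 (by omega)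
    have key := hE2 q _ _ (G.ty c (r - 1)) (G.ty c r) (G.ty c (r + 1)) _ h0 h1
      (YY_bd hN hc hr0) (YY_bd hN hc hr2) n1 n2 hs hs2 a1 a2 a3
    have hp := (nice_near hN ⟨c, hc⟩ ⟨r, hr⟩).re_pos h0 h1
    rw [hx_shift _ _ _ _ hp] at key
    rw [XR_eq hc hr, xr_of_minus hs]
    simp only at key
    rw [add_comm (1 / 4 : ℝ) (r : ℝ)] at key
    linarith only [key]
  · -- ceil
    intro c a o hc htop
    have hr : G.N - 1 < G.N := by omega
    rw [YY_eq hc hr]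
    have h := E73 ⟨c, hc⟩ ⟨G.N - 1, hr⟩ a o (by show G.N - 1 + 1 = G.N; omega) htop
    simp only at h
    linarith only [h]
  · -- lever
    intro c σ hc htop
    obtain ⟨hc1, htop1⟩ := hOK.portL c σ hc htop
    have hr : G.N - 1 < G.N := by omega
    have hev : (G.N - 1) % 2 = 0 := by omega
    have hNr : ((G.N - 1 : ℕ) : ℝ) = (G.N : ℝ) - 1 := by
      rw [Nat.cast_sub (by omega)]
      simp
    refine ⟨YY_bd hN hc hr, YY_bd hN hc1 hr, ?_⟩
    have hisL : (G.top c).isL = true := by rw [htop]; rfl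
    let L : {c : Fin G.M // (G.top c).isL = true} := ⟨⟨c, hc⟩, hisL⟩
    have hshp : G.shpOf G.ty (.inr L) = .lever σ := by
      show Shp.lever (G.top c).sig = Shp.lever σ
      rw [htop]
      rfl
    obtain ⟨uA, vA⟩ := even_motion hE5 hOK hsm hN hc hr hev
    obtain ⟨uB, vB⟩ := even_motion hE5 hOK hsm hN hc1 hr hev
    have hL := hN.lever L
    have hcA := hF.ceil c hc
    have hcB := hF.ceil (c + 1) hc1
    rw [htop] at hcA
    rw [htop1] at hcB
    have hcorner : (corner (.inr L : Cell G) : ℂ) = ⟨(c : ℝ) + 1 / 2, G.N⟩ := rfl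
    have hdA := hN.disj (.inl (⟨c, hc⟩, ⟨G.N - 1, hr⟩)) (.inr L) (by simp)
    have hdB := hN.disj (.inl (⟨c + 1, hc1⟩, ⟨G.N - 1, hr⟩)) (.inr L) (by simp)
    rw [hshp] at hdA hdB
    have hsub := hN.sub (.inr L)
    rw [hshp] at hsub
    refine hE3 q _ _ σ (shift (g (.inr L)) (corner (.inr L : Cell G))) h0 h1 (YY_bd hN hc hr)
      (YY_bd hN hc1 hr) hL.1 hL.2 ?_ ?_ ?_
    · rw [mem_int_shift, hcorner]
      refine not_mem_of_disj (hS3 q (.tile (G.ty c (G.N - 1))) h0 h1').1 hdA ?_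
      have := bump_mem h0 h1 (t := G.ty c (G.N - 1)) uA vA (p := 26) (by
        rw [hcA]
        cases σ <;> simp [Top.col, pcol, Col.marks])
      convert! this using 1
      apply Complex.ext
      · simp only [Complex.add_re]
        push_cast
        ring
      · simp only [Complex.add_im]
        rw [hNr]
        ring
    · rw [mem_int_shift, hcorner]
      refine not_mem_of_disj (hS3 q (.tile (G.ty (c + 1) (G.N - 1))) h0 h1').1 hdB ?_
      have := bump_mem h0 h1 (t := G.ty (c + 1) (G.N - 1)) uB vB (p := 14) (by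
        rw [hcB]
        cases σ <;> simp [Top.col, pcol, Col.marks])
      convert! this using 1
      apply Complex.ext
      · simp only [Complex.add_re]
        push_cast
        ring
      · simp only [Complex.add_im]
        rw [hNr]
        ring
    · rw [mem_int_shift, hcorner]
      refine not_interior (w := Complex.I) ?_
      intro t ht hm
      have hcont := hsub hm
      obtain ⟨-, -, -, -, S5, -⟩ := hS4 q G hOK hsm
      have e1 : ((⟨20 / 32, piv q σ⟩ : ℂ) + ⟨(c : ℝ) + 1 / 2, G.N⟩ + t * Complex.I).re =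
          (c : ℝ) + 1 + 4 / 32 := by
        simp
        ring
      have e2 : ((⟨20 / 32, piv q σ⟩ : ℂ) + ⟨(c : ℝ) + 1 / 2, G.N⟩ + t * Complex.I).im =
          piv q σ + G.N + t := by
        simp
      have h5 := (S5 _ hcont (c + 1) hc1 (by rw [e1]; push_cast; linarith)
        (by rw [e1]; push_cast; linarith)).2
      rw [e1, e2, htop1] at h5
      have e3 : (c : ℝ) + 1 + 4 / 32 - ((c + 1 : ℕ) : ℝ) = 4 / 32 := by
        push_cast
        ring
      rw [e3] at h5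
      have h6 := spike h0 h1 σ
      linarith only [ht, h5, h6]

end Pool.Agent.Helper67_Pack
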