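import Pool.Agent.Helper67_Pack.E6

/-!
# E5: the tiles in the even rows are not rotated
-/

namespace Pool.Agent.Helper67_Pack

open Pool.Agent.Helper2_Pack MeasureTheory Set

theorem xr_eq {q : ℝ} {G : Layout} (hF : Fits G G.ty) {c r : ℕ} (hc : c + 1 < G.M)
    (hr : r < G.N) : (G.ty c r).xr q = 1 + (G.ty (c + 1) r).xl q := by
  have h := hF.horiz c r hc hr
  unfold Tile.xr Tile.xl
  rw [h]
  split_ifs <;> ring

theorem xl_zero {q : ℝ} {G : Layout} (hF : Fits G G.ty) {r : ℕ} (hr : r < G.N) :
    (G.ty 0 r).xl q = 0 := by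
  unfold Tile.xl
  rw [hF.left r hr]
  simp

theorem xr_last {q : ℝ} {G : Layout} (hF : Fits G G.ty) {r : ℕ} (hr : r < G.N) :
    (G.ty (G.M - 1) r).xr q = 1 := by
  unfold Tile.xr
  rw [hF.right r hr]
  simp

/-- E5 -/
theorem e5 (hE6 : E6Stmt) : E5Stmt := by
  intro q G g hOK hsm hN c r hr
  have h0 := hsm.pos
  have h1 := small_q hsm
  obtain ⟨k1, k2, k3⟩ := hE6 q G g hOK hsm hN r
  have hF := hOK.fits
  -- width of the tiles
  have hw : ∀ c : Fin G.M, (G.ty c r).xr q - (G.ty c r).xl q ≤
      ((G.ty c r).xr q - (G.ty c r).xl q) / (g (.inl (c, r))).u.re := by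
    intro c
    have hp := (nice_near hN c r).re_pos h0 h1
    have h2 := re_le_one (g (.inl (c, r)))
    have b1 := xl_bd h0 (G.ty c r)
    have b2 := xr_bd h0 (G.ty c r)
    rw [le_div_iff₀ hp]
    have h3 : 0 ≤ (G.ty c r).xr q - (G.ty c r).xl q := by
      norm_num at h1
      linarith
    exact mul_le_of_le_one_right h3 h2
  -- from the left
  have hL : ∀ n : ℕ, ∀ c : Fin G.M, c.val = n →
      (c : ℝ) + (G.ty c r).xl q ≤ hx (g (.inl (c, r))) ((G.ty c r).xl q) (r + 1 / 4) := by
    intro n
    induction n with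
    | zero =>
      intro c hc
      have := (k3 c).1
      rw [if_pos hr] at this
      have e : (G.ty c r).xl q = 0 := by
        rw [hc]
        exact xl_zero hF r.isLt
      have e2 : (c : ℝ) = 0 := by
        rw [show (c : ℝ) = ((c.val : ℕ) : ℝ) from rfl, hc]
        simp
      rw [e2]
      rw [e] at this ⊢
      linarith
    | succ n ih =>
      intro c hc
      have hlt : n < G.M := by have := c.isLt; omega
      have h5 := ih ⟨n, hlt⟩ rfl
      have h6 := k2 ⟨n, hlt⟩ c hc
      have h7 := k1 ⟨n, hlt⟩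
      have h8 := hw ⟨n, hlt⟩
      have h9 := xr_eq (q := q) hF (c := n) (r := r) (by have := c.isLt; omega) r.isLt
      rw [← hc] at h9
      have h10 : (c : ℝ) = (n : ℝ) + 1 := by
        have : (c.val : ℝ) = ((n + 1 : ℕ) : ℝ) := by rw [hc]
        push_cast at this
        exact this
      simp only at h5 h6 h7 h8
      rw [h10]
      linarith
  -- from the right
  have hR : ∀ n : ℕ, ∀ c : Fin G.M, c.val + n + 1 = G.M →
      hx (g (.inl (c, r))) ((G.ty c r).xr q) (r + 1 / 4) ≤ (c : ℝ) + (G.ty c r).xr q := by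
    intro n
    induction n with
    | zero =>
      intro c hc
      have := (k3 c).2
      rw [if_pos hr] at this
      have e : (G.ty c r).xr q = 1 := by
        rw [show c.val = G.M - 1 by omega]
        exact xr_last hF r.isLt
      have e2 : (G.M : ℝ) = (c : ℝ) + 1 := by
        have : (G.M : ℝ) = ((c.val + 0 + 1 : ℕ) : ℝ) := by rw [hc]
        push_cast at this
        linarith
      rw [e2] at this
      rw [e] at this ⊢
      linarith
    | succ n ih =>
      intro c hc
      have hlt : c.val + 1 < G.M := by omega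
      have h5 := ih ⟨c.val + 1, hlt⟩ (by show c.val + 1 + n + 1 = G.M; omega)
      have h6 := k2 c ⟨c.val + 1, hlt⟩ rfl
      have h7 := k1 ⟨c.val + 1, hlt⟩
      have h8 := hw ⟨c.val + 1, hlt⟩
      have h9 := xr_eq (q := q) hF (c := c.val) (r := r) hlt r.isLt
      simp only at h5 h6 h7 h8
      push_cast at h5
      linarith
  have hl := hL c.val c rfl
  have hr' := hR (G.M - 1 - c.val) c (by have := c.isLt; omega)
  have h7 := k1 c
  have h8 := hw c
  have hp := (nice_near hN c r).re_pos h0 h1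
  have b1 := xl_bd h0 (G.ty c r)
  have b2 := xr_bd h0 (G.ty c r)
  have hpos : 0 < (G.ty c r).xr q - (G.ty c r).xl q := by
    norm_num at h1
    linarith
  have heq : ((G.ty c r).xr q - (G.ty c r).xl q) / (g (.inl (c, r))).u.re =
      (G.ty c r).xr q - (G.ty c r).xl q := by linarith
  have hre : (g (.inl (c, r))).u.re = 1 := by
    rw [div_eq_iff hp.ne'] at heq
    have h9 : ((G.ty c r).xr q - (G.ty c r).xl q) * ((g (.inl (c, r))).u.re - 1) = 0 := by
      rw [mul_sub, mul_one, ← heq, sub_self]
    rcases mul_eq_zero.1 h9 with h10 | h10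
    · exact absurd h10 hpos.ne'
    · linarith
  have him : (g (.inl (c, r))).u.im = 0 := by
    have := unit_sq (g (.inl (c, r)))
    rw [hre] at this
    have h11 : (g (.inl (c, r))).u.im ^ 2 = 0 := by linarith
    exact pow_eq_zero_iff (two_ne_zero) |>.1 h11
  refine ⟨Complex.ext (by rw [hre]; rfl) (by rw [him]; rfl), ?_⟩
  have e := hx_eq (g (.inl (c, r))) ((G.ty c r).xl q) (r + 1 / 4) hp
  rw [hre, him] at e
  linarith

end Pool.Agent.Helper67_Pack
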