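import Pool.Agent.Helper67_Pack.Common

/-!
# E6: the chain of a row
-/

namespace Pool.Agent.Helper67_Pack

open Pool.Agent.Helper2_Pack MeasureTheory Set

theorem small_q {q : ℝ} {G : Layout} (h : Small q G) : q ≤ 1 / 2 ^ 20 := by
  have h1 := h.small
  have h2 : (2 : ℝ) ^ 20 ≤ 2 ^ (8 * G.K + 60) :=
    pow_le_pow_right₀ (by norm_num) (by omega)
  rw [le_div_iff₀ (by positivity)]
  exact (mul_le_mul_of_nonneg_left h2 h.pos.le).trans h1

/-- a nearly identical motion, in coordinates -/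
structure NearM (q c r : ℝ) (g : Motion) : Prop where
  re : 1 - q ^ 2 ≤ g.u.re
  im : |g.u.im| ≤ q ^ 2
  vre : |g.v.re - c| ≤ q ^ 2
  vim : |g.v.im - r| ≤ q ^ 2

theorem NearM.re_pos {q c r : ℝ} {g : Motion} (h : NearM q c r g) (h0 : 0 < q)
    (h1 : q ≤ 1 / 2 ^ 20) : 0 < g.u.re := by
  have := h.re
  have h2 := q2_le h0 h1
  norm_num at h1 h2
  linarith only [this, h1, h2]

/-- the abscissa `hx` is close to the expected one -/
theorem NearM.hx_near {q c r : ℝ} {g : Motion} (h : NearM q c r g) (h0 : 0 < q)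
    (h1 : q ≤ 1 / 2 ^ 20) {a y : ℝ} (ha : 0 ≤ a) (ha' : a ≤ 2) (hy : r ≤ y) (hy' : y ≤ r + 1) :
    |hx g a y - (c + a)| ≤ 8 * q ^ 2 := by
  have hp := h.re_pos h0 h1
  have e := hx_eq g a y hp
  have h2 := q2_le h0 h1
  have h3 : 0 < q ^ 2 := by positivity
  obtain ⟨v1, v2⟩ := abs_le.1 h.vre
  obtain ⟨w1, w2⟩ := abs_le.1 h.vim
  obtain ⟨b1, b2⟩ := abs_le.1 h.im
  have hr1 := re_le_one g
  have hre := h.re
  -- the term with the sine
  have hs : |g.u.im * (y - g.v.im)| ≤ q ^ 2 * 2 := by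
    rw [abs_mul]
    refine mul_le_mul h.im ?_ (abs_nonneg _) h3.le
    rw [abs_le]
    norm_num at h1 h2
    constructor <;> linarith
  obtain ⟨s1, s2⟩ := abs_le.1 hs
  set X := hx g a y - g.v.re with hX
  -- `u.re * X = a - sine term`
  have e2 : g.u.re * X = a - g.u.im * (y - g.v.im) := by linarith only [e]
  have hXa : |X - a| ≤ 7 * q ^ 2 := by
    have h5 : g.u.re * (X - a) = (1 - g.u.re) * a - g.u.im * (y - g.v.im) := by
      rw [mul_sub, e2]
      ring
    have h6 : |g.u.re * (X - a)| ≤ q ^ 2 * 2 + q ^ 2 * 2 := by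
      rw [h5]
      refine (abs_sub _ _).trans (add_le_add ?_ hs)
      rw [abs_of_nonneg (mul_nonneg (by linarith) ha)]
      exact mul_le_mul (by linarith) ha' ha h3.le
    rw [abs_mul, abs_of_pos hp] at h6
    have h7 : (3 : ℝ) / 4 ≤ g.u.re := by
      norm_num at h1 h2
      linarith
    have h8 : 3 / 4 * |X - a| ≤ g.u.re * |X - a| := mul_le_mul_of_nonneg_right h7 (abs_nonneg _)
    linarith only [h3, h6, h8]
  obtain ⟨x1, x2⟩ := abs_le.1 hXa
  rw [abs_le]
  constructor <;> linarith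

/-- the height of the preimage of a point at height `r + 1/4` -/
theorem NearM.height {q c r : ℝ} {g : Motion} (h : NearM q c r g) (h0 : 0 < q)
    (h1 : q ≤ 1 / 2 ^ 20) {x y : ℝ} (hx1 : c - 1 ≤ x) (hx2 : x ≤ c + 2) (hy : r ≤ y)
    (hy' : y ≤ r + 1) :
    |g.u.re * (y - g.v.im) - g.u.im * (x - g.v.re) - (y - r)| ≤ 8 * q ^ 2 := by
  have h2 := q2_le h0 h1
  have h3 : 0 < q ^ 2 := by positivity
  obtain ⟨v1, v2⟩ := abs_le.1 h.vre
  obtain ⟨w1, w2⟩ := abs_le.1 h.vim
  have hr1 := re_le_one g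
  have hre := h.re
  have hs : |g.u.im * (x - g.v.re)| ≤ q ^ 2 * 4 := by
    rw [abs_mul]
    refine mul_le_mul h.im ?_ (abs_nonneg _) h3.le
    rw [abs_le]
    norm_num at h1 h2
    constructor <;> linarith
  have ht : |(1 - g.u.re) * (y - g.v.im)| ≤ q ^ 2 * 2 := by
    rw [abs_mul, abs_of_nonneg (by linarith : 0 ≤ 1 - g.u.re)]
    refine mul_le_mul (by linarith) ?_ (abs_nonneg _) h3.le
    rw [abs_le]
    norm_num at h1 h2
    constructor <;> linarith
  obtain ⟨s1, s2⟩ := abs_le.1 hs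
  obtain ⟨t1, t2⟩ := abs_le.1 ht
  have e : g.u.re * (y - g.v.im) - g.u.im * (x - g.v.re) - (y - r) =
      -((1 - g.u.re) * (y - g.v.im)) - g.u.im * (x - g.v.re) - (g.v.im - r) := by ring
  rw [e, abs_le]
  constructor <;> linarith

theorem nice_near {q : ℝ} {G : Layout} {ty : ℕ → ℕ → Tile} {g : Cell G → Motion}
    (h : Nice q G ty g) (c : Fin G.M) (r : Fin G.N) : NearM q c r (g (.inl (c, r))) := by
  obtain ⟨h1, h2⟩ := h.tile (c, r)
  obtain ⟨h3, h4, h5, h6⟩ := near_bd h1 h2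
  exact ⟨h3, h4, h5, h6⟩

/-- points strictly between the sides are interior points -/
theorem mem_int_row {q : ℝ} {t : Tile} {c r : ℝ} {g : Motion} (hG : ((Shp.tile t).sh q).Good)
    (h : NearM q c r g) (h0 : 0 < q) (h1 : q ≤ 1 / 2 ^ 20) {x : ℝ}
    (hx1 : hx g (t.xl q) (r + 1 / 4) < x) (hx2 : x < hx g (t.xr q) (r + 1 / 4)) :
    (⟨x, r + 1 / 4⟩ : ℂ) ∈ interior (img q g (.tile t)) := by
  have hp := h.re_pos h0 h1
  have h2 := q2_le h0 h1
  have h3 : 0 < q ^ 2 := by positivity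
  have b1 := xl_bd h0 t
  have b2 := xr_bd h0 t
  have n1 := h.hx_near h0 h1 (a := t.xl q) (y := r + 1 / 4) b1.1 (by norm_num at h1; linarith)
    (by linarith) (by linarith)
  have n2 := h.hx_near h0 h1 (a := t.xr q) (y := r + 1 / 4) (by linarith only [b2])
    (by norm_num at h1; linarith) (by linarith) (by linarith)
  obtain ⟨n3, n4⟩ := abs_le.1 n1
  obtain ⟨n5, n6⟩ := abs_le.1 n2
  have e1 := hx_eq g (t.xl q) (r + 1 / 4) hp
  have e2 := hx_eq g (t.xr q) (r + 1 / 4) hp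
  have hh := h.height h0 h1 (x := x) (y := r + 1 / 4) (by norm_num at h1 h2; linarith only [hx1, b1, n3, h1, h2])
    (by norm_num at h1 h2; linarith only [hx2, b2, n6, h1, h2]) (by linarith) (by linarith)
  obtain ⟨h5, h6⟩ := abs_le.1 hh
  have hx1' := mul_lt_mul_of_pos_left hx1 hp
  have hx2' := mul_lt_mul_of_pos_left hx2 hp
  rw [mem_interior_img hG]
  have k1 : t.xl q < g.u.re * (x - g.v.re) + g.u.im * (r + 1 / 4 - g.v.im) := by
    rw [mul_sub] at e1 ⊢
    linarith only [e1, hx1']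
  have k2 : g.u.re * (x - g.v.re) + g.u.im * (r + 1 / 4 - g.v.im) < t.xr q := by
    rw [mul_sub] at e2 ⊢
    linarith only [e2, hx2']
  refine ⟨k1, k2, ?_, ?_⟩
  · refine (lo_le h0 h1 t k1.le).trans_lt ?_
    norm_num at h1 h2
    show 2 * q < g.u.re * (r + 1 / 4 - g.v.im) - g.u.im * (x - g.v.re)
    linarith only [h5, h1, h2]
  · refine lt_of_lt_of_le ?_ (le_hi h0 h1 t k1.le)
    norm_num at h1 h2
    show g.u.re * (r + 1 / 4 - g.v.im) - g.u.im * (x - g.v.re) < 1 - q
    linarith only [h6, h1, h2]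

/-- the points of the sides are points of the image -/
theorem mem_row {q : ℝ} {t : Tile} {c r : ℝ} {g : Motion}
    (h : NearM q c r g) (h0 : 0 < q) (h1 : q ≤ 1 / 2 ^ 20) {x : ℝ}
    (hx1 : hx g (t.xl q) (r + 1 / 4) ≤ x) (hx2 : x ≤ hx g (t.xr q) (r + 1 / 4)) :
    (⟨x, r + 1 / 4⟩ : ℂ) ∈ img q g (.tile t) := by
  have hp := h.re_pos h0 h1
  have h2 := q2_le h0 h1
  have h3 : 0 < q ^ 2 := by positivity
  have b1 := xl_bd h0 t
  have b2 := xr_bd h0 t
  have n1 := h.hx_near h0 h1 (a := t.xl q) (y := r + 1 / 4) b1.1 (by norm_num at h1; linarith)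
    (by linarith) (by linarith)
  have n2 := h.hx_near h0 h1 (a := t.xr q) (y := r + 1 / 4) (by linarith only [b2])
    (by norm_num at h1; linarith only [b2, h1]) (by linarith) (by linarith)
  obtain ⟨n3, n4⟩ := abs_le.1 n1
  obtain ⟨n5, n6⟩ := abs_le.1 n2
  have e1 := hx_eq g (t.xl q) (r + 1 / 4) hp
  have e2 := hx_eq g (t.xr q) (r + 1 / 4) hp
  have hh := h.height h0 h1 (x := x) (y := r + 1 / 4) (by norm_num at h1 h2; linarith only [hx1, b1, n3, h1, h2])
    (by norm_num at h1 h2; linarith only [hx2, b2, n6, h1, h2]) (by linarith) (by linarith)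
  obtain ⟨h5, h6⟩ := abs_le.1 hh
  have hx1' := mul_le_mul_of_nonneg_left hx1 hp.le
  have hx2' := mul_le_mul_of_nonneg_left hx2 hp.le
  rw [mem_img]
  have k1 : t.xl q ≤ g.u.re * (x - g.v.re) + g.u.im * (r + 1 / 4 - g.v.im) := by
    rw [mul_sub] at e1 ⊢
    linarith only [e1, hx1']
  have k2 : g.u.re * (x - g.v.re) + g.u.im * (r + 1 / 4 - g.v.im) ≤ t.xr q := by
    rw [mul_sub] at e2 ⊢
    linarith only [e2, hx2']
  refine ⟨k1, k2, ?_, ?_⟩
  · refine (lo_le h0 h1 t k1).trans ?_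
    norm_num at h1 h2
    show 2 * q ≤ g.u.re * (r + 1 / 4 - g.v.im) - g.u.im * (x - g.v.re)
    linarith only [h5, h1, h2]
  · refine le_trans ?_ (le_hi h0 h1 t k1)
    norm_num at h1 h2
    show g.u.re * (r + 1 / 4 - g.v.im) - g.u.im * (x - g.v.re) ≤ 1 - q
    linarith only [h6, h1, h2]

theorem hx_diff (g : Motion) (a b y : ℝ) : hx g a y + (b - a) / g.u.re = hx g b y := by
  unfold hx
  rw [← add_div]
  congr 1
  ring

theorem hx_mono {g : Motion} {a b y : ℝ} (h : 0 < g.u.re) (hab : a ≤ b) :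
    hx g a y ≤ hx g b y := by
  rw [← hx_diff g a b y]
  have : 0 ≤ (b - a) / g.u.re := div_nonneg (by linarith) h.le
  linarith

/-- E6 -/
theorem e6 (hS3 : S3Stmt) (hS4 : S4Stmt) : E6Stmt := by
  intro q G g hOK hsm hN r
  have h0 := hsm.pos
  have h1 := small_q hsm
  have h1' : q ≤ 1 / 1000 := h1.trans (by norm_num)
  have h2 := q2_le h0 h1
  have h3 : 0 < q ^ 2 := by positivity
  refine ⟨fun c => hx_diff _ _ _ _, ?_, ?_⟩
  · intro c c' hcc
    by_contra hlt
    push Not at hlt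
    have nc := nice_near hN c r
    have nc' := nice_near hN c' r
    have hcc' : (c' : ℝ) = (c : ℝ) + 1 := by
      have : (c'.val : ℝ) = ((c.val + 1 : ℕ) : ℝ) := by rw [hcc]
      push_cast at this
      exact this
    set t := G.ty c r with ht
    set t' := G.ty c' r with ht'
    have b1 := xl_bd h0 t
    have b2 := xr_bd h0 t
    have b1' := xl_bd h0 t'
    have b2' := xr_bd h0 t'
    have m1 := abs_le.1 (nc.hx_near h0 h1 (a := t.xl q) (y := r + 1 / 4) b1.1
      (by norm_num at h1; linarith) (by linarith) (by linarith))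
    have m2 := abs_le.1 (nc.hx_near h0 h1 (a := t.xr q) (y := r + 1 / 4) (by linarith only [b2])
      (by norm_num at h1; linarith only [b2, h1]) (by linarith) (by linarith))
    have m1' := abs_le.1 (nc'.hx_near h0 h1 (a := t'.xl q) (y := r + 1 / 4) b1'.1
      (by norm_num at h1; linarith only [b1', h1]) (by linarith) (by linarith))
    have m2' := abs_le.1 (nc'.hx_near h0 h1 (a := t'.xr q) (y := r + 1 / 4) (by linarith only [b2'])
      (by norm_num at h1; linarith only [b2', h1]) (by linarith) (by linarith))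
    obtain ⟨x, hxa, hxb⟩ := exists_between (show
      max (hx (g (.inl (c, r))) (t.xl q) (r + 1 / 4)) (hx (g (.inl (c', r))) (t'.xl q) (r + 1 / 4)) <
      min (hx (g (.inl (c, r))) (t.xr q) (r + 1 / 4)) (hx (g (.inl (c', r))) (t'.xr q) (r + 1 / 4))
      from by
        norm_num at h1 h2
        refine lt_min (max_lt ?_ hlt) (max_lt ?_ ?_) <;> linarith only [hcc', hlt, b1, b1', m1, m1', h1, h2, b2', m2', b2, m2])
    rw [max_lt_iff] at hxa
    rw [lt_min_iff] at hxb
    have i1 := mem_int_row (hS3 q (.tile t) h0 h1').1 nc h0 h1 hxa.1 hxb.1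
    have i2 := mem_int_row (hS3 q (.tile t') h0 h1').1 nc' h0 h1 hxa.2 hxb.2
    have hne : (Sum.inl (c, r) : Cell G) ≠ Sum.inl (c', r) := by
      intro h
      have h5 := Sum.inl.inj h
      have h6 := congrArg (fun p => p.1.val) h5
      simp only at h6
      omega
    exact (hN.disj _ _ hne).le_bot ⟨i1, i2⟩
  · intro c
    have nc := nice_near hN c r
    have hp := nc.re_pos h0 h1
    set t := G.ty c r with ht
    have b1 := xl_bd h0 t
    have b2 := xr_bd h0 t
    have hle : hx (g (.inl (c, r))) (t.xl q) (r + 1 / 4) ≤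
      hx (g (.inl (c, r))) (t.xr q) (r + 1 / 4) := hx_mono hp (by linarith)
    have i1 := hN.sub (.inl (c, r)) (mem_row (t := t) nc h0 h1 le_rfl hle)
    have i2 := hN.sub (.inl (c, r)) (mem_row (t := t) nc h0 h1 hle le_rfl)
    obtain ⟨-, s1, s2, -⟩ := hS4 q G hOK hsm
    split_ifs with he
    · have j1 := s2 _ i1 r he r.isLt (by show (r : ℝ) < r + 1 / 4; linarith)
        (by show (r : ℝ) + 1 / 4 < r + 1; linarith)
      have j2 := s2 _ i2 r he r.isLt (by show (r : ℝ) < r + 1 / 4; linarith)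
        (by show (r : ℝ) + 1 / 4 < r + 1; linarith)
      refine ⟨j1.1, ?_⟩
      rw [add_zero]
      exact j2.2
    · exact ⟨(s1 _ i1).1, (s1 _ i2).2.1⟩

end Pool.Agent.Helper67_Pack
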