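import Pool.Agent.Helper67_Pack.E5

/-!
# E7: the columns, away from the adders and the subtractors
-/

namespace Pool.Agent.Helper67_Pack

open Pool.Agent.Helper2_Pack MeasureTheory Set

theorem col_re {q : ℝ} {c r : ℝ} {g : Motion} (h : NearM q c r g) (h0 : 0 < q)
    (h1 : q ≤ 1 / 2 ^ 20) {y : ℝ}
    (hy : 0 ≤ g.u.re * (y - g.v.im) - g.u.im * (c + 1 / 4 - g.v.re))
    (hy' : g.u.re * (y - g.v.im) - g.u.im * (c + 1 / 4 - g.v.re) ≤ 1) :
    15 / 64 ≤ g.u.re * (c + 1 / 4 - g.v.re) + g.u.im * (y - g.v.im) ∧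
      g.u.re * (c + 1 / 4 - g.v.re) + g.u.im * (y - g.v.im) ≤ 17 / 64 := by
  have hp := h.re_pos h0 h1
  have h2 := q2_le h0 h1
  have h3 : 0 < q ^ 2 := by positivity
  obtain ⟨v1, v2⟩ := abs_le.1 h.vre
  obtain ⟨b1, b2⟩ := abs_le.1 h.im
  have hr1 := re_le_one g
  have hre := h.re
  have hs : |g.u.im * (c + 1 / 4 - g.v.re)| ≤ q ^ 2 * 1 := by
    rw [abs_mul]
    refine mul_le_mul h.im ?_ (abs_nonneg _) h3.le
    rw [abs_le]
    norm_num at h1 h2
    constructor <;> linarith only [v2, h1, h2, v1]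
  obtain ⟨s1, s2⟩ := abs_le.1 hs
  have hy1 : |g.u.re * (y - g.v.im)| ≤ 3 / 2 := by
    rw [abs_le]
    norm_num at h1 h2
    constructor <;> linarith only [hy, s1, h1, h2, hy', s2]
  have hy2 : |y - g.v.im| ≤ 2 := by
    rw [abs_mul, abs_of_pos hp] at hy1
    have h7 : (3 : ℝ) / 4 ≤ g.u.re := by
      norm_num at h1 h2
      linarith only [hre, h1, h2]
    have h8 : 3 / 4 * |y - g.v.im| ≤ g.u.re * |y - g.v.im| :=
      mul_le_mul_of_nonneg_right h7 (abs_nonneg _)
    linarith only [hy1, h8]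
  have ht : |g.u.im * (y - g.v.im)| ≤ q ^ 2 * 2 := by
    rw [abs_mul]
    exact mul_le_mul h.im hy2 (abs_nonneg _) h3.le
  obtain ⟨t1, t2⟩ := abs_le.1 ht
  have hz : |(1 - g.u.re) * (c + 1 / 4 - g.v.re)| ≤ q ^ 2 * 1 := by
    rw [abs_mul, abs_of_nonneg (by linarith only [hr1] : 0 ≤ 1 - g.u.re)]
    refine mul_le_mul (by linarith only [hre]) ?_ (abs_nonneg _) h3.le
    rw [abs_le]
    norm_num at h1 h2
    constructor <;> linarith only [v2, h1, h2, v1]
  obtain ⟨z1, z2⟩ := abs_le.1 hz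
  have e : g.u.re * (c + 1 / 4 - g.v.re) + g.u.im * (y - g.v.im) =
      (c + 1 / 4 - g.v.re) - (1 - g.u.re) * (c + 1 / 4 - g.v.re) + g.u.im * (y - g.v.im) := by
    ring
  rw [e]
  norm_num at h1 h2
  constructor <;> linarith only [v2, t1, z2, h1, h2, v1, t2, z1]

theorem mem_int_col {q : ℝ} {t : Tile} {c r : ℝ} {g : Motion} (hG : ((Shp.tile t).sh q).Good)
    (ht : t.sgn = 0) (h : NearM q c r g) (h0 : 0 < q) (h1 : q ≤ 1 / 2 ^ 20) {y : ℝ}
    (hy : 0 < g.u.re * (y - g.v.im) - g.u.im * (c + 1 / 4 - g.v.re))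
    (hy' : g.u.re * (y - g.v.im) - g.u.im * (c + 1 / 4 - g.v.re) < 1) :
    (⟨c + 1 / 4, y⟩ : ℂ) ∈ interior (img q g (.tile t)) := by
  obtain ⟨k1, k2⟩ := col_re h h0 h1 hy.le hy'.le
  have b1 := xl_bd h0 t
  have b2 := xr_bd h0 t
  rw [mem_interior_img hG]
  refine ⟨?_, ?_, ?_, ?_⟩
  · show t.xl q < g.u.re * (c + 1 / 4 - g.v.re) + g.u.im * (y - g.v.im)
    norm_num at h1
    linarith only [k1, b1, h1]
  · show g.u.re * (c + 1 / 4 - g.v.re) + g.u.im * (y - g.v.im) < t.xr q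
    linarith
  · have := flat_lo h0 h1 t ht k1 k2
    show (t.sh q).lo (g.u.re * (c + 1 / 4 - g.v.re) + g.u.im * (y - g.v.im)) < _
    rw [this]
    exact hy
  · have := flat_hi h0 h1 t k1 k2
    show _ < (t.sh q).hi (g.u.re * (c + 1 / 4 - g.v.re) + g.u.im * (y - g.v.im))
    rw [this]
    exact hy'

theorem mem_col {q : ℝ} {t : Tile} {c r : ℝ} {g : Motion}
    (ht : t.sgn = 0) (h : NearM q c r g) (h0 : 0 < q) (h1 : q ≤ 1 / 2 ^ 20) {y : ℝ}
    (hy : 0 ≤ g.u.re * (y - g.v.im) - g.u.im * (c + 1 / 4 - g.v.re))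
    (hy' : g.u.re * (y - g.v.im) - g.u.im * (c + 1 / 4 - g.v.re) ≤ 1) :
    (⟨c + 1 / 4, y⟩ : ℂ) ∈ img q g (.tile t) := by
  obtain ⟨k1, k2⟩ := col_re h h0 h1 hy hy'
  have b1 := xl_bd h0 t
  have b2 := xr_bd h0 t
  rw [mem_img]
  refine ⟨?_, ?_, ?_, ?_⟩
  · show t.xl q ≤ g.u.re * (c + 1 / 4 - g.v.re) + g.u.im * (y - g.v.im)
    norm_num at h1
    linarith
  · show g.u.re * (c + 1 / 4 - g.v.re) + g.u.im * (y - g.v.im) ≤ t.xr q
    linarith only [k2, b2]
  · have := flat_lo h0 h1 t ht k1 k2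
    show (t.sh q).lo (g.u.re * (c + 1 / 4 - g.v.re) + g.u.im * (y - g.v.im)) ≤ _
    rw [this]
    exact hy
  · have := flat_hi h0 h1 t k1 k2
    show _ ≤ (t.sh q).hi (g.u.re * (c + 1 / 4 - g.v.re) + g.u.im * (y - g.v.im))
    rw [this]
    exact hy'

/-- the two intervals cut out of the line over the abscissa `c + 1/4` do not overlap -/
theorem col_disj {q : ℝ} {t t' : Tile} {c r : ℝ} {g g' : Motion}
    (hG : ((Shp.tile t).sh q).Good) (hG' : ((Shp.tile t').sh q).Good) (ht : t.sgn = 0)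
    (ht' : t'.sgn = 0) (h : NearM q c r g) (h' : NearM q c (r + 1) g') (h0 : 0 < q)
    (h1 : q ≤ 1 / 2 ^ 20) (hd : Disjoint (interior (img q g (.tile t)))
      (interior (img q g' (.tile t')))) {y₁ y₂ : ℝ}
    (e1 : g.u.re * (y₁ - g.v.im) - g.u.im * (c + 1 / 4 - g.v.re) = 1)
    (e2 : g'.u.re * (y₂ - g'.v.im) - g'.u.im * (c + 1 / 4 - g'.v.re) = 0) : y₁ ≤ y₂ := by
  by_contra hlt
  push Not at hlt
  have hp := h.re_pos h0 h1
  have hp' := h'.re_pos h0 h1
  have h2 := q2_le h0 h1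
  have h3 : 0 < q ^ 2 := by positivity
  -- bounds for `y₁`, `y₂`
  have key : ∀ {g : Motion} {r : ℝ}, NearM q c r g →
      |g.u.im * (c + 1 / 4 - g.v.re)| ≤ q ^ 2 * 1 := by
    intro g r h
    obtain ⟨v1, v2⟩ := abs_le.1 h.vre
    rw [abs_mul]
    refine mul_le_mul h.im ?_ (abs_nonneg _) h3.le
    rw [abs_le]
    norm_num at h1 h2
    constructor <;> linarith only [v2, h1, h2, v1]
  obtain ⟨s1, s2⟩ := abs_le.1 (key h)
  obtain ⟨s1', s2'⟩ := abs_le.1 (key h')
  obtain ⟨w1, w2⟩ := abs_le.1 h.vim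
  obtain ⟨w1', w2'⟩ := abs_le.1 h'.vim
  -- the top `y₁` of the lower piece is above `r + 1/2`
  have a1 : r + 3 / 4 ≤ y₁ := by
    by_contra hc
    push Not at hc
    have : g.u.re * (y₁ - g.v.im) ≤ 7 / 8 := by
      by_cases hn : y₁ - g.v.im ≤ 0
      · have := mul_nonneg hp.le (neg_nonneg.2 hn)
        linarith only [this]
      · push Not at hn
        have h8 := mul_le_mul_of_nonneg_right (re_le_one g) hn.le
        norm_num at h1 h2
        linarith only [w1, hc, h8, h1, h2]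
    norm_num at h1 h2
    linarith only [e1, s1, this, h1, h2]
  have a2 : y₂ ≤ r + 5 / 4 := by
    by_contra hc
    push Not at hc
    have hn : 1 / 8 ≤ y₂ - g'.v.im := by
      norm_num at h1 h2
      linarith only [w2', hc, h1, h2]
    have h8 : (3 : ℝ) / 4 ≤ g'.u.re := by
      have := h'.re
      norm_num at h1 h2
      linarith only [this, h1, h2]
    have h9 : 3 / 4 * (1 / 8) ≤ g'.u.re * (y₂ - g'.v.im) :=
      mul_le_mul h8 hn (by norm_num) (by linarith only [h8])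
    norm_num at h1 h2
    linarith only [e2, s2', h9, h1, h2]
  obtain ⟨y, hya, hyb⟩ := exists_between (show max y₂ (r + 1 / 2) < min y₁ (r + 3 / 2) from
    lt_min (max_lt hlt (by linarith only [a1])) (max_lt (by linarith only [a2]) (by linarith)))
  rw [max_lt_iff] at hya
  rw [lt_min_iff] at hyb
  have i1 : (⟨c + 1 / 4, y⟩ : ℂ) ∈ interior (img q g (.tile t)) := by
    refine mem_int_col hG ht h h0 h1 ?_ ?_
    · have h8 : (3 : ℝ) / 4 ≤ g.u.re := by
        have := h.re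
        norm_num at h1 h2
        linarith only [this, h1, h2]
      have h9 : 3 / 4 * (1 / 4) ≤ g.u.re * (y - g.v.im) :=
        mul_le_mul h8 (by norm_num at h1 h2; linarith only [w2, hya, h1, h2]) (by norm_num) (by linarith only [h8])
      norm_num at h1 h2
      linarith only [s2, h9, h1, h2]
    · have h10 : g.u.re * (y - g.v.im) < g.u.re * (y₁ - g.v.im) :=
        mul_lt_mul_of_pos_left (by linarith only [hyb]) hp
      linarith only [e1, h10]
  have i2 : (⟨c + 1 / 4, y⟩ : ℂ) ∈ interior (img q g' (.tile t')) := by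
    refine mem_int_col hG' ht' h' h0 h1 ?_ ?_
    · have h10 : g'.u.re * (y₂ - g'.v.im) < g'.u.re * (y - g'.v.im) :=
        mul_lt_mul_of_pos_left (by linarith only [hya]) hp'
      linarith only [e2, h10]
    · have h9 : g'.u.re * (y - g'.v.im) ≤ 3 / 4 := by
        by_cases hn : y - g'.v.im ≤ 0
        · have := mul_nonneg hp'.le (neg_nonneg.2 hn)
          linarith only [this]
        · push Not at hn
          have h8 := mul_le_mul_of_nonneg_right (re_le_one g') hn.le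
          norm_num at h1 h2
          linarith only [w1', hyb, h8, h1, h2]
      norm_num at h1 h2
      linarith only [s1', h9, h1, h2]
  exact hd.le_bot ⟨i1, i2⟩

theorem sgn_even {G : Layout} (hOK : G.OK) {c r : ℕ} (hc : c < G.M) (hr : r < G.N)
    (he : r % 2 = 0) : (G.ty c r).sgn = 0 := by
  by_contra h
  have := hOK.odd c r hc hr h
  omega

theorem ne_row {G : Layout} {c : Fin G.M} {r r' : Fin G.N} (h : r.val ≠ r'.val) :
    (Sum.inl (c, r) : Cell G) ≠ Sum.inl (c, r') := by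
  intro h1
  have h5 := Sum.inl.inj h1
  exact h (congrArg (fun p => p.2.val) h5)

/-- E7 -/
theorem e7 (hS3 : S3Stmt) (hS4 : S4Stmt) (hE5 : E5Stmt) : E7Stmt := by
  intro q G g hOK hsm hN
  have h0 := hsm.pos
  have h1 := small_q hsm
  have h1' : q ≤ 1 / 1000 := h1.trans (by norm_num)
  have h2 := q2_le h0 h1
  have h3 : 0 < q ^ 2 := by positivity
  obtain ⟨-, -, -, -, S5, -⟩ := hS4 q G hOK hsm
  refine ⟨?_, ?_, ?_⟩
  · intro c r hr
    have hs := sgn_even hOK c.isLt r.isLt (by rw [hr])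
    obtain ⟨hu, hv⟩ := hE5 q G g hOK hsm hN c r (by rw [hr])
    have nc := nice_near hN c r
    have hm : (⟨(c : ℝ) + 1 / 4, (g (.inl (c, r))).v.im⟩ : ℂ) ∈
        img q (g (.inl (c, r))) (.tile (G.ty c r)) := by
      refine mem_col hs nc h0 h1 ?_ ?_ <;> rw [hu, hv] <;> simp
    have hc := hN.sub _ hm
    have := (S5 _ hc c c.isLt (by show (c : ℝ) ≤ c + 1 / 4; linarith)
      (by show (c : ℝ) + 1 / 4 ≤ c + 1; linarith)).1
    exact (base_le_tents _ _ _).trans this
  · intro c r r' r'' hr hr' hr'' ht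
    have hs := sgn_even hOK c.isLt r.isLt hr
    have hs'' := sgn_even hOK c.isLt r''.isLt (by omega)
    obtain ⟨hu, hv⟩ := hE5 q G g hOK hsm hN c r hr
    obtain ⟨hu'', hv''⟩ := hE5 q G g hOK hsm hN c r'' (by omega)
    have nc := nice_near hN c r
    have nc' := nice_near hN c r'
    have nc'' := nice_near hN c r''
    have er' : (r' : ℝ) = r + 1 := by
      have : (r'.val : ℝ) = ((r.val + 1 : ℕ) : ℝ) := by rw [hr']
      push_cast at this
      exact this
    have er'' : (r'' : ℝ) = r' + 1 := by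
      have : (r''.val : ℝ) = ((r.val + 2 : ℕ) : ℝ) := by rw [hr'']
      push_cast at this
      rw [er']
      linarith only [this]
    rw [er''] at nc''
    have nc'1 := nc'
    rw [er'] at nc'1
    set g' := g (.inl (c, r')) with hg'
    have hp' := nc'.re_pos h0 h1
    obtain ⟨y₁, hy₁⟩ : ∃ y₁, g'.u.re * (y₁ - g'.v.im) - g'.u.im * (c + 1 / 4 - g'.v.re) = 0 := by
      refine ⟨g'.v.im + g'.u.im * (c + 1 / 4 - g'.v.re) / g'.u.re, ?_⟩
      rw [add_sub_cancel_left, mul_div_cancel₀ _ hp'.ne', sub_self]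
    obtain ⟨y₂, hy₂⟩ : ∃ y₂, g'.u.re * (y₂ - g'.v.im) - g'.u.im * (c + 1 / 4 - g'.v.re) = 1 := by
      refine ⟨g'.v.im + (1 + g'.u.im * (c + 1 / 4 - g'.v.re)) / g'.u.re, ?_⟩
      rw [add_sub_cancel_left, mul_div_cancel₀ _ hp'.ne', add_sub_cancel_right]
    have hA : (g (.inl (c, r))).v.im + 1 ≤ y₁ := by
      refine col_disj (hS3 q (.tile (G.ty c r)) h0 h1').1 (hS3 q (.tile (G.ty c r')) h0 h1').1
        hs ht nc nc'1 h0 h1 (hN.disj _ _ (ne_row (by omega))) ?_ hy₁
      rw [hu, hv]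
      simp
    have hB : y₂ ≤ (g (.inl (c, r''))).v.im := by
      refine col_disj (hS3 q (.tile (G.ty c r')) h0 h1').1 (hS3 q (.tile (G.ty c r'')) h0 h1').1
        ht hs'' nc' nc'' h0 h1 (hN.disj _ _ (ne_row (by omega))) hy₂ ?_
      rw [hu'', hv'']
      simp
    have hC : y₁ + 1 ≤ y₂ := by
      have h5 : g'.u.re * (y₂ - y₁) = 1 := by
        rw [mul_sub] at hy₁ hy₂ ⊢
        linarith only [hy₁, hy₂]
      have h6 := re_le_one g'
      by_contra hc
      push Not at hc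
      have h7 : g'.u.re * (y₂ - y₁) < g'.u.re * 1 := mul_lt_mul_of_pos_left (by linarith only [hc]) hp'
      linarith only [hy₁, hy₂, h6, h7]
    linarith only [hA, hB, hC]
  · intro c r a o hr htop
    have hNodd : G.N = 2 * G.n + 1 := rfl
    have hev : r.val % 2 = 0 := by omega
    have hs := sgn_even hOK c.isLt r.isLt hev
    obtain ⟨hu, hv⟩ := hE5 q G g hOK hsm hN c r hev
    have nc := nice_near hN c r
    have hm : (⟨(c : ℝ) + 1 / 4, (g (.inl (c, r))).v.im + 1⟩ : ℂ) ∈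
        img q (g (.inl (c, r))) (.tile (G.ty c r)) := by
      refine mem_col hs nc h0 h1 ?_ ?_ <;> rw [hu, hv] <;> simp
    have hc := hN.sub _ hm
    have h5 := (S5 _ hc c c.isLt (by show (c : ℝ) ≤ c + 1 / 4; linarith)
      (by show (c : ℝ) + 1 / 4 ≤ c + 1; linarith)).2
    rw [htop] at h5
    have h6 : locCeil q (.flat a o) (((⟨(c : ℝ) + 1 / 4, (g (.inl (c, r))).v.im + 1⟩ : ℂ)).re - c) ≤
        o * q ^ 4 := by
      show locCeil q (.flat a o) ((c : ℝ) + 1 / 4 - c) ≤ o * q ^ 4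
      rw [add_sub_cancel_left]
      have h7 : 0 < q ^ 3 := by positivity
      have h8 := q3_le h0 h1
      have h9 : q / 2 ^ 40 ≤ q / 16 := div_le_div_of_nonneg_left h0.le (by norm_num) (by norm_num)
      refine max_le ?_ (tents_le (by linarith) ?_)
      · have h10 : (1 : ℝ) ≤ 1 / 4 / (4 * q ^ 3) := by
          rw [le_div_iff₀ (by positivity)]
          norm_num at h1
          linarith only [h8, h1]
        have h11 : (1 : ℝ) ≤ (1 - 1 / 4) / (4 * q ^ 3) := by
          rw [le_div_iff₀ (by positivity)]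
          norm_num at h1
          linarith only [h8, h1]
        rw [min_eq_left (le_min h10 h11), mul_one]
      · intro d hd
        rw [List.mem_map] at hd
        obtain ⟨p, hp, rfl⟩ := hd
        have hp' := (marks_bd _ p hp).1
        have hp2 : (10 : ℝ) ≤ p := by exact_mod_cast hp'
        show (o : ℝ) * q ^ 4 + q + q ^ 3 - |1 / 4 - (p : ℝ) / 32| ≤ o * q ^ 4
        have h8 : (p : ℝ) / 32 - 1 / 4 ≤ |1 / 4 - (p : ℝ) / 32| := by
          rw [abs_sub_comm]
          exact le_abs_self _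
        norm_num at h1
        linarith
    have h7 : (G.N : ℝ) = r + 1 := by
      have : (G.N : ℝ) = ((r.val + 1 : ℕ) : ℝ) := by rw [hr]
      push_cast at this
      exact this
    rw [h7] at h5
    have h8 : (g (.inl (c, r))).v.im + 1 ≤ (r : ℝ) + 1 + o * q ^ 4 := by
      refine h5.trans ?_
      linarith
    linarith only [h5, h6]

end Pool.Agent.Helper67_Pack
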