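import Pool.Agent.Helper2_Pack.S1
import Pool.Agent.Helper2_Pack.S2

/-!
# Tools for the exact inequalities (block E)
-/

namespace Pool.Agent.Helper67_Pack

open Pool.Agent.Helper2_Pack MeasureTheory Set

/-! ### tents -/

theorem tents_le {g B x : ℝ} {L : List (ℝ × ℝ)} (hg : g ≤ B)
    (h : ∀ d ∈ L, d.2 - |x - d.1| ≤ B) : tents g L x ≤ B := by
  induction L with
  | nil => exact hg
  | cons a L ih =>
    refine max_le (h a (by simp)) (ih fun d hd => h d (by simp [hd]))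

theorem base_le_tents (g x : ℝ) (L : List (ℝ × ℝ)) : g ≤ tents g L x := by
  induction L with
  | nil => exact le_rfl
  | cons a L ih => exact le_trans ih (le_max_right _ _)

theorem le_tents {g x : ℝ} {L : List (ℝ × ℝ)} {d : ℝ × ℝ} (hd : d ∈ L) :
    d.2 - |x - d.1| ≤ tents g L x := by
  induction L with
  | nil => simp at hd
  | cons a L ih =>
    rcases List.mem_cons.1 hd with rfl | hd
    · exact le_max_left _ _
    · exact le_trans (ih hd) (le_max_right _ _)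

theorem marks_bd (a : Col) : ∀ p ∈ a.marks, 10 ≤ p ∧ p ≤ 29 := by
  intro p hp
  cases a <;> simp [Col.marks] at hp <;> omega

/-! ### bounds for small `q` -/

theorem q3_le {q : ℝ} (h0 : 0 < q) (h1 : q ≤ 1 / 2 ^ 20) : q ^ 3 ≤ q / 2 ^ 40 := by
  have h2 : q * q ≤ (1 / 2 ^ 20) * (1 / 2 ^ 20) := mul_le_mul h1 h1 h0.le (by positivity)
  have h3 : q ^ 3 = q * (q * q) := by ring
  rw [h3]
  calc q * (q * q) ≤ q * ((1 / 2 ^ 20) * (1 / 2 ^ 20)) := mul_le_mul_of_nonneg_left h2 h0.le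
    _ = q / 2 ^ 40 := by ring

theorem q2_le {q : ℝ} (h0 : 0 < q) (h1 : q ≤ 1 / 2 ^ 20) : q ^ 2 ≤ q / 2 ^ 20 := by
  have h3 : q ^ 2 = q * q := by ring
  rw [h3]
  calc q * q ≤ q * (1 / 2 ^ 20) := mul_le_mul_of_nonneg_left h1 h0.le
    _ = q / 2 ^ 20 := by ring

theorem xl_bd {q : ℝ} (h0 : 0 < q) (t : Tile) : 0 ≤ t.xl q ∧ t.xl q ≤ q := by
  unfold Tile.xl
  split_ifs <;> constructor <;> linarith

theorem xr_bd {q : ℝ} (h0 : 0 < q) (t : Tile) : 1 ≤ t.xr q ∧ t.xr q ≤ 1 + q := by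
  unfold Tile.xr
  split_ifs <;> constructor <;> linarith

theorem cham_bd {q xl x : ℝ} (h0 : 0 < q) (h : xl ≤ x) :
    0 ≤ cham q xl x ∧ cham q xl x ≤ 8 * q ^ 3 := by
  unfold cham
  have h3 : 0 < q ^ 3 := by positivity
  refine ⟨le_max_left _ _, max_le (by linarith) (max_le (by linarith) (min_le_left _ _))⟩

theorem cham_zero {q xl x : ℝ} (h0 : 0 < q) (h1 : q ≤ 1 / 2 ^ 20) (hxl : xl ≤ q)
    (hx : 1 / 32 ≤ x) (hx' : x ≤ 31 / 32) : cham q xl x = 0 := by
  unfold cham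
  have h3 := q3_le h0 h1
  have h4 : 0 < q ^ 3 := by positivity
  have h5 : xl + 8 * q ^ 3 - x ≤ 0 := by
    have : q / 2 ^ 40 ≤ q := div_le_self h0.le (by norm_num)
    norm_num at h1 ⊢
    linarith
  have h6 : x - 1 + 8 * q ^ 3 ≤ 0 := by
    have : q / 2 ^ 40 ≤ q := div_le_self h0.le (by norm_num)
    norm_num at h1 ⊢
    linarith
  apply le_antisymm
  · exact max_le le_rfl (max_le h5 ((min_le_right _ _).trans h6))
  · exact le_max_left _ _

theorem lo_le {q x : ℝ} (h0 : 0 < q) (h1 : q ≤ 1 / 2 ^ 20) (t : Tile) (hx : t.xl q ≤ x) :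
    (t.sh q).lo x ≤ 2 * q := by
  have h3 := q3_le h0 h1
  have h4 : 0 < q ^ 3 := by positivity
  have h5 : q / 2 ^ 40 ≤ q / 16 := div_le_div_of_nonneg_left h0.le (by norm_num) (by norm_num)
  refine max_le ((cham_bd h0 hx).2.trans (by linarith)) (tents_le ?_ ?_)
  · unfold Tile.base
    split_ifs <;> linarith
  · intro d hd
    unfold Tile.dents at hd
    rw [List.mem_map] at hd
    obtain ⟨p, -, rfl⟩ := hd
    have h6 : ∀ y : ℝ, 0 ≤ |y| := fun y => abs_nonneg y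
    split_ifs
    · have := h6 (x - (p : ℝ) / 32)
      show q + q ^ 3 - |x - (p : ℝ) / 32| ≤ 2 * q
      linarith
    · have := h6 (x - ((p : ℝ) / 32 + t.sgn * q ^ 3))
      show q + q ^ 3 - |x - ((p : ℝ) / 32 + t.sgn * q ^ 3)| ≤ 2 * q
      linarith
    · have := h6 (x - (p : ℝ) / 32)
      show q + 2 * q ^ 3 - |x - (p : ℝ) / 32| ≤ 2 * q
      linarith

theorem le_hi {q x : ℝ} (h0 : 0 < q) (h1 : q ≤ 1 / 2 ^ 20) (t : Tile) (hx : t.xl q ≤ x) :
    1 - q ≤ (t.sh q).hi x := by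
  have h3 := q3_le h0 h1
  have h4 : 0 < q ^ 3 := by positivity
  have h5 : q / 2 ^ 40 ≤ q / 16 := div_le_div_of_nonneg_left h0.le (by norm_num) (by norm_num)
  have h6 := (cham_bd h0 hx).2
  have h7 := base_le_tents 1 x (t.top.marks.map fun p : ℕ => ((p : ℝ) / 32, 1 + q))
  show 1 - q ≤ tents 1 (t.top.marks.map fun p : ℕ => ((p : ℝ) / 32, 1 + q)) x - cham q (t.xl q) x
  linarith

/-- the flat part near `x = 8/32` -/
theorem flat_hi {q x : ℝ} (h0 : 0 < q) (h1 : q ≤ 1 / 2 ^ 20) (t : Tile) (hx : 15 / 64 ≤ x)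
    (hx' : x ≤ 17 / 64) : (t.sh q).hi x = 1 := by
  have h2 : cham q (t.xl q) x = 0 := cham_zero h0 h1 (xl_bd h0 t).2 (by linarith) (by linarith)
  show tents 1 (t.top.marks.map fun p : ℕ => ((p : ℝ) / 32, 1 + q)) x - cham q (t.xl q) x = 1
  rw [h2, sub_zero]
  apply le_antisymm _ (base_le_tents _ _ _)
  apply tents_le le_rfl
  intro d hd
  rw [List.mem_map] at hd
  obtain ⟨p, hp, rfl⟩ := hd
  have hp' := (marks_bd _ p hp).1
  have hp2 : (10 : ℝ) ≤ p := by exact_mod_cast hp'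
  show 1 + q - |x - (p : ℝ) / 32| ≤ 1
  have h8 : (p : ℝ) / 32 - x ≤ |x - (p : ℝ) / 32| := by
    rw [abs_sub_comm]
    exact le_abs_self _
  norm_num at h1
  linarith

theorem flat_lo {q x : ℝ} (h0 : 0 < q) (h1 : q ≤ 1 / 2 ^ 20) (t : Tile) (ht : t.sgn = 0)
    (hx : 15 / 64 ≤ x) (hx' : x ≤ 17 / 64) : (t.sh q).lo x = 0 := by
  have h2 : cham q (t.xl q) x = 0 := cham_zero h0 h1 (xl_bd h0 t).2 (by linarith) (by linarith)
  have h3 := q3_le h0 h1
  have h5 : q / 2 ^ 40 ≤ q / 16 := div_le_div_of_nonneg_left h0.le (by norm_num) (by norm_num)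
  show max (cham q (t.xl q) x) (tents (t.base q) (t.dents q) x) = 0
  rw [h2]
  apply le_antisymm _ (le_max_left _ _)
  refine max_le le_rfl (tents_le ?_ ?_)
  · unfold Tile.base
    rw [if_pos ht]
  intro d hd
  unfold Tile.dents at hd
  rw [List.mem_map] at hd
  obtain ⟨p, hp, rfl⟩ := hd
  rw [if_pos ht]
  have hp' := (marks_bd _ p hp).1
  have hp2 : (10 : ℝ) ≤ p := by exact_mod_cast hp'
  show q + q ^ 3 - |x - (p : ℝ) / 32| ≤ 0
  have h8 : (p : ℝ) / 32 - x ≤ |x - (p : ℝ) / 32| := by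
    rw [abs_sub_comm]
    exact le_abs_self _
  norm_num at h1
  linarith

/-! ### coordinates -/

theorem inv_re (g : Motion) (z : ℂ) : ((starRingEnd ℂ g.u) * (z - g.v)).re =
    g.u.re * (z.re - g.v.re) + g.u.im * (z.im - g.v.im) := by
  simp [Complex.mul_re]

theorem inv_im (g : Motion) (z : ℂ) : ((starRingEnd ℂ g.u) * (z - g.v)).im =
    g.u.re * (z.im - g.v.im) - g.u.im * (z.re - g.v.re) := by
  simp [Complex.mul_im]
  ring

theorem unit_sq (g : Motion) : g.u.re ^ 2 + g.u.im ^ 2 = 1 := by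
  have h := g.unit
  have h2 : Complex.normSq g.u = 1 := by
    rw [Complex.normSq_eq_norm_sq, h]
    norm_num
  rw [Complex.normSq_apply] at h2
  linarith

theorem re_le_one (g : Motion) : g.u.re ≤ 1 := by
  have := unit_sq g
  nlinarith [sq_nonneg g.u.im]

theorem hx_eq (g : Motion) (a y : ℝ) (h : 0 < g.u.re) :
    g.u.re * (hx g a y - g.v.re) + g.u.im * (y - g.v.im) = a := by
  unfold hx
  have h1 : ((starRingEnd ℂ g.u) * g.v).re = g.u.re * g.v.re + g.u.im * g.v.im := by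
    simp [Complex.mul_re]
  rw [h1, mul_sub, mul_div_cancel₀ _ h.ne']
  ring

theorem hx_unique (g : Motion) (a y x : ℝ) (h : 0 < g.u.re)
    (hx' : g.u.re * (x - g.v.re) + g.u.im * (y - g.v.im) = a) : x = hx g a y := by
  have h1 := hx_eq g a y h
  have h2 : g.u.re * (x - hx g a y) = 0 := by linarith
  rcases mul_eq_zero.1 h2 with h3 | h3
  · exact absurd h3 h.ne'
  · linarith

/-- points in the image of a shape -/
theorem mem_img {q : ℝ} {g : Motion} {s : Shp} {z : ℂ} :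
    z ∈ img q g s ↔ (s.sh q).xl ≤ g.u.re * (z.re - g.v.re) + g.u.im * (z.im - g.v.im) ∧
      g.u.re * (z.re - g.v.re) + g.u.im * (z.im - g.v.im) ≤ (s.sh q).xr ∧
      (s.sh q).lo (g.u.re * (z.re - g.v.re) + g.u.im * (z.im - g.v.im)) ≤
        g.u.re * (z.im - g.v.im) - g.u.im * (z.re - g.v.re) ∧
      g.u.re * (z.im - g.v.im) - g.u.im * (z.re - g.v.re) ≤
      (s.sh q).hi (g.u.re * (z.re - g.v.re) + g.u.im * (z.im - g.v.im)) := by
  unfold img
  rw [g.mem_image]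
  unfold Shp.reg Sh.reg
  simp only [Set.mem_ofPred_eq]
  rw [inv_re, inv_im]

theorem mem_interior_img {q : ℝ} {g : Motion} {s : Shp} (h : (s.sh q).Good) {z : ℂ} :
    z ∈ interior (img q g s) ↔
      (s.sh q).xl < g.u.re * (z.re - g.v.re) + g.u.im * (z.im - g.v.im) ∧
      g.u.re * (z.re - g.v.re) + g.u.im * (z.im - g.v.im) < (s.sh q).xr ∧
      (s.sh q).lo (g.u.re * (z.re - g.v.re) + g.u.im * (z.im - g.v.im)) <
        g.u.re * (z.im - g.v.im) - g.u.im * (z.re - g.v.re) ∧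
      g.u.re * (z.im - g.v.im) - g.u.im * (z.re - g.v.re) <
      (s.sh q).hi (g.u.re * (z.re - g.v.re) + g.u.im * (z.im - g.v.im)) := by
  unfold img
  rw [(s2 g _).1, g.mem_image]
  unfold Shp.reg
  rw [h.interior_eq]
  simp only [Set.mem_ofPred_eq]
  rw [inv_re, inv_im]

/-- the real bounds for a nice motion -/
theorem near_bd {g : Motion} {a : ℂ} {e : ℝ} (h1 : ‖g.u - 1‖ ≤ e) (h2 : ‖g.v - a‖ ≤ e) :
    1 - e ≤ g.u.re ∧ |g.u.im| ≤ e ∧ |g.v.re - a.re| ≤ e ∧ |g.v.im - a.im| ≤ e := by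
  have h3 := (Complex.abs_re_le_norm (g.u - 1)).trans h1
  have h4 := (Complex.abs_im_le_norm (g.u - 1)).trans h1
  have h5 := (Complex.abs_re_le_norm (g.v - a)).trans h2
  have h6 := (Complex.abs_im_le_norm (g.v - a)).trans h2
  simp at h3 h4 h5 h6
  exact ⟨by linarith [(abs_le.1 h3).1], h4, h5, h6⟩

/-- a point of a closed piece is not in the interior of a piece with disjoint interior -/
theorem not_mem_of_disj {q : ℝ} {g g' : Motion} {s s' : Shp} (h : (s.sh q).Good)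
    (hd : Disjoint (interior (img q g s)) (interior (img q g' s'))) {z : ℂ}
    (hz : z ∈ img q g s) : z ∉ interior (img q g' s') := by
  intro hz'
  have h1 : img q g s ⊆ closure (interior (img q g s)) := by
    unfold img
    rw [(s2 g _).1, (s2 g _).2.1]
    exact image_mono h.subset_closure
  obtain ⟨w, hw1, hw2⟩ := mem_closure_iff.1 (h1 hz) _ isOpen_interior hz'
  exact hd.le_bot ⟨hw2, hw1⟩

end Pool.Agent.Helper67_Pack
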